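import Pool.Agent.Helper79.SA.Goals

/-!
# MP_4137ca_lc, packet DEC: measurable sets are decided
-/

open MeasureTheory Filter Topology Set

noncomputable section

namespace SA.PkDEC

open Pool.Agent.Helper97.Ku SA

variable {K : Type}

/-- A set of points decided densely. -/
def Dc (B : Set (K → Rl)) : Prop := ∀ p : Cnd K, ∃ q, q ≤ p ∧ (q.rg ⊆ B ∨ q.rg ⊆ Bᶜ)

theorem dc_empty : Dc (∅ : Set (K → Rl)) := by
  intro p
  refine ⟨p, le_refl p, Or.inr ?_⟩
  simp

theorem dc_compl {B : Set (K → Rl)} (h : Dc B) : Dc Bᶜ := by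
  intro p
  obtain ⟨q, hq, h1⟩ := h p
  refine ⟨q, hq, ?_⟩
  rw [compl_compl]
  exact h1.symm

theorem dc_union (fup : G_FUP) (pcs : G_PCS) [Nonempty K] {B : ℕ → Set (K → Rl)}
    (h : ∀ n, Dc (B n)) : Dc (⋃ n, B n) := by
  intro p
  obtain ⟨q, hq, F, k, hD⟩ := fup K p (fun n => {r : Cnd K | r.rg ⊆ B n ∨ r.rg ⊆ (B n)ᶜ})
    (fun n r _ => by
      obtain ⟨q, h1, h2⟩ := h n r
      exact ⟨q, h1, h2⟩)
    (fun n r r' h1 h2 => by
      rcases h1 with h1 | h1
      · exact Or.inl ((Cnd.rg_mono h2).trans h1)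
      · exact Or.inr ((Cnd.rg_mono h2).trans h1))
  by_cases hc : ∃ n s, (q * box (F n) (k n) s).rg ⊆ B n
  · obtain ⟨n, s, h1⟩ := hc
    exact ⟨q * box (F n) (k n) s, (Cnd.mul_le _ _).trans hq, Or.inl (h1.trans (subset_iUnion B n))⟩
  · push Not at hc
    refine ⟨q, hq, Or.inr ?_⟩
    intro z hz hz2
    obtain ⟨n, hn⟩ := mem_iUnion.mp hz2
    have h2 := (pcs K q (F n) (k n)).2.1
    rw [h2] at hz
    obtain ⟨s, hs⟩ := mem_iUnion.mp hz
    rcases hD n s with h3 | h3
    · exact hc n s h3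
    · exact h3 hs hn

/-- The sigma-algebra of decided sets. -/
abbrev DcM (fup : G_FUP) (pcs : G_PCS) (K : Type) [Nonempty K] : MeasurableSpace (K → Rl) where
  MeasurableSet' B := Dc B
  measurableSet_empty := dc_empty
  measurableSet_compl _ h := dc_compl h
  measurableSet_iUnion _ h := dc_union fup pcs h

theorem dc_coord (ξ : K) (n : ℕ) (s : Set Bool) : Dc {z : K → Rl | z ξ n ∈ s} := by
  intro p
  have key : ∀ z ∈ (p * box {ξ} (n + 1) (fun _ _ => false)).rg,
      z ξ n = (p.m ξ).f (fun _ => false) n := by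
    rintro z ⟨z', rfl⟩
    have h1 : EqB (n + 1) ((cn (n + 1) (fun _ => false)).f (z' ξ)) (fun _ => false) := by
      intro i hi
      simp only [cn]
      rw [if_pos hi]
    have h2 := (p.m ξ).lip (n + 1) _ _ h1 n (by omega)
    have h3 : (p * box {ξ} (n + 1) (fun _ _ => false)).ac z' ξ
        = (p.m ξ).f ((cn (n + 1) (fun _ => false)).f (z' ξ)) := by
      simp only [Cnd.ac, Cnd.mul_m, Mp.mul_f, box, Finset.mem_singleton, if_true]
    rw [h3]
    exact h2
  refine ⟨p * box {ξ} (n + 1) (fun _ _ => false), Cnd.mul_le _ _, ?_⟩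
  by_cases hs : (p.m ξ).f (fun _ => false) n ∈ s
  · left
    intro z hz
    rw [mem_ofPred_eq, key z hz]
    exact hs
  · right
    intro z hz hz2
    rw [mem_ofPred_eq, key z hz] at hz2
    exact hs hz2

/-- Packet DEC. -/
theorem dec (fup : G_FUP) (pcs : G_PCS) (_box : G_BOX) : G_DEC := by
  intro K _ B hB
  have hle : (MeasurableSpace.pi : MeasurableSpace (K → Rl)) ≤ DcM fup pcs K := by
    have h1 : @Measurable (K → Rl) (K → Rl) (DcM fup pcs K) MeasurableSpace.pi (fun z => z) := by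
      refine @measurable_pi_iff _ _ _ (DcM fup pcs K) _ _ |>.mpr fun ξ => ?_
      refine @measurable_pi_iff _ _ _ (DcM fup pcs K) _ _ |>.mpr fun n => ?_
      intro s _
      exact dc_coord ξ n s
    intro s hs
    exact h1 hs
  exact hle B hB

end SA.PkDEC
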